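import Mathlib
import Pool.Agent.Zomb.Upper

/-!
# The zombie number of the toroidal grid is `O(n^{3/2})`

For every `n ≥ 3` the zombie number of `C_n □ C_n` is at most `341 n^{3/2}`; in particular it
is `O(n^2)`, which was the open case singled out in the problem.

Outline.  Fix a path of the survivor with `T < n/8` steps.  The number of starting positions from
which a single zombie catches a survivor who follows this path has expectation at least
`(3/20) (T+1)^{3/2}` (`Pool.Agent.Zomb.S_lower`).  A union bound over the `n^2 5^T` paths
handles adaptive survivors.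
-/

theorem Pool.Agent.Results.MP_34e428_co.ZombieTorusUpper.result :
    ∀ n : ℕ, 3 ≤ n →
      Pool.Agent.Zomb.sVal (Pool.Agent.Zomb.torus n)
          (Pool.Agent.Zomb.zombieNumber (Pool.Agent.Zomb.torus n)) ≤ 1 / 2 ∧
      (Pool.Agent.Zomb.zombieNumber (Pool.Agent.Zomb.torus n) : ℝ) ≤ 341 * (n : ℝ) ^ (3 / 2 : ℝ) :=
  fun n hn => Pool.Agent.Zomb.upper n hn
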